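import Pool.Agent.Lib.MP_60079e_gt.Main

/-!
# The Wu manifold is not prime, in `Top` and in `Diff`

For both categories there are closed connected oriented 5-manifolds `M`, `N` such that the Wu
manifold `W` divides `M # N` but divides neither `M` nor `N`.  The definitions are in
`Pool/Agent/Lib/MP_60079e_gt/CatDefs.lean`.
-/

namespace Pool.Agent.Results.MP_60079e_gt.NotPrime

open WuCat

theorem result : ∀ C : Cat, ∃ W : Mfd C, W.Closed ∧ IsWu W ∧
    ∃ M N P : Mfd C, M.Closed ∧ N.Closed ∧ P.Closed ∧ IsConnSum M N P ∧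
      Divides W P ∧ ¬ Divides W M ∧ ¬ Divides W N :=
  Wu.main

end Pool.Agent.Results.MP_60079e_gt.NotPrime
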